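import Pool.Agent.MP_db5b97_nt.H31.SpecT
import Pool.Agent.MP_db5b97_nt.H21.NT2
import Pool.Agent.MP_db5b97_nt.H95.RES

/-! Frobenius elements in a cyclic cyclotomic extension. -/

namespace Pool.Agent.MP_db5b97_nt.H70

open H85 H31 NumberField IsDedekindDomain
open scoped Pointwise

theorem per_gcd {a : ℕ → ℤ} (m n : ℕ) : Function.Periodic a m → Function.Periodic a n →
    Function.Periodic a (m.gcd n) := by
  induction m, n using Nat.gcd.induction with
  | H0 n => exact fun _ h => by simpa using h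
  | H1 m n _ ih =>
    intro hm hn
    rw [Nat.gcd_rec]
    refine ih (fun i => ?_) hm
    have h := hm.nat_mul (n / m) (i + n % m)
    rw [← h, ← hn i, Nat.cast_id, add_assoc, Nat.mod_add_div']

theorem sum_per {a : ℕ → ℤ} {d : ℕ} (h : Function.Periodic a d) (c : ℕ) :
    ∑ i ∈ Finset.range (d * c), a i = c * ∑ i ∈ Finset.range d, a i := by
  induction c with
  | zero => simp
  | succ c ih =>
    rw [mul_add_one, Finset.sum_range_add, ih, Nat.cast_succ, add_one_mul]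
    refine congrArg _ (Finset.sum_congr rfl fun i _ => ?_)
    have h' := h.nat_mul c i
    rwa [Nat.cast_id, add_comm, mul_comm] at h'

theorem dvd_sum_per {a : ℕ → ℤ} {m n : ℕ} (hm : Function.Periodic a m)
    (hn : Function.Periodic a n) : (n : ℤ) ∣ m * ∑ i ∈ Finset.range n, a i := by
  obtain ⟨c, hc⟩ := Nat.gcd_dvd_right m n
  obtain ⟨e, he⟩ := Nat.gcd_dvd_left m n
  have h := sum_per (per_gcd m n hm hn) c
  rw [← hc] at h
  refine ⟨e * ∑ i ∈ Finset.range (m.gcd n), a i, ?_⟩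
  have hc' : (n : ℤ) = m.gcd n * c := by exact_mod_cast hc
  have he' : (m : ℤ) = m.gcd n * e := by exact_mod_cast he
  rw [h]
  linear_combination (c * ∑ i ∈ Finset.range (m.gcd n), a i) * he' -
    (e * ∑ i ∈ Finset.range (m.gcd n), a i) * hc'

theorem dvd_mul_iff {N s f : ℕ} (hN : N ≠ 0) (h : f * s.gcd N = N) (D : ℤ) :
    (N : ℤ) ∣ s * D ↔ (f : ℤ) ∣ D := by
  have hg : 0 < s.gcd N := Nat.gcd_pos_of_pos_right _ (Nat.pos_of_ne_zero hN)
  obtain ⟨e, he⟩ := Nat.gcd_dvd_left s N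
  have hco : e.Coprime f := by
    have := Nat.coprime_div_gcd_div_gcd hg
    rwa [Nat.div_eq_of_eq_mul_right hg he, Nat.div_eq_of_eq_mul_left hg h.symm] at this
  have h1 : (N : ℤ) = s.gcd N * f := by exact_mod_cast (mul_comm f _ ▸ h).symm
  have h2 : (s : ℤ) * D = s.gcd N * (e * D) := by
    rw [← mul_assoc]
    exact congrArg (· * D) (by exact_mod_cast he)
  rw [h2]
  conv_lhs => rw [h1]
  rw [mul_dvd_mul_iff_left (by exact_mod_cast hg.ne')]
  exact ⟨(Nat.isCoprime_iff_coprime.2 hco.symm).dvd_of_dvd_mul_left, fun h => h.mul_left _⟩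

theorem mem_zpowers_pow_iff {G : Type} [Group G] [Finite G] (g : G) (s n : ℕ) :
    g ^ n ∈ Subgroup.zpowers (g ^ s) ↔ s.gcd (orderOf g) ∣ n := by
  rw [← mem_powers_iff_mem_zpowers]
  constructor
  · rintro ⟨a, ha⟩
    have h : s * a ≡ n [MOD orderOf g] := pow_eq_pow_iff_modEq.1 (by rw [pow_mul]; exact ha)
    exact (h.dvd_iff (Nat.gcd_dvd_right _ _)).1 ((Nat.gcd_dvd_left _ _).mul_right a)
  · rintro ⟨c, rfl⟩
    rw [mem_powers_iff_mem_zpowers, pow_mul, ← zpow_natCast g (s.gcd _), Nat.gcd_eq_gcd_ab,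
      zpow_add, zpow_mul, zpow_mul, zpow_natCast, zpow_natCast, pow_orderOf_eq_one, one_zpow,
      mul_one]
    exact pow_mem (zpow_mem (Subgroup.mem_zpowers _) _) c

variable {p q R g0 : ℕ} {k E Λ : Type} [Field k] [NumberField k] [Field E] [NumberField E]
  [Algebra k E] [Group Λ] [MulSemiringAction Λ E] {lam : Λ} {ζ : E}

/-- the root of unity as an integer -/
def zz (H : Cy p q R g0 k lam ζ) : 𝓞 E := ⟨ζ, H.prim.isIntegral H.qp.pos⟩

theorem zz_prim (H : Cy p q R g0 k lam ζ) : IsPrimitiveRoot (zz H) q :=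
  IsPrimitiveRoot.coe_submonoidClass_iff.1 H.prim

theorem zz_smul (H : Cy p q R g0 k lam ζ) (n : ℕ) : lam ^ n • zz H = zz H ^ g0 ^ n := by
  induction n with
  | zero => simp
  | succ n ih =>
    have h : lam • zz H = zz H ^ g0 := RingOfIntegers.ext H.act
    rw [pow_succ', mul_smul, ih, smul_pow', h, ← pow_mul, pow_succ']

theorem ord_lam (H : Cy p q R g0 k lam ζ) : orderOf lam = p ^ R := by
  rw [← H.card]
  exact orderOf_eq_card_of_forall_mem_zpowers H.gen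

theorem g0_pow (H : Cy p q R g0 k lam ζ) (a b : ℕ) :
    (g0 : ZMod q) ^ a = (g0 : ZMod q) ^ b ↔ lam ^ a = lam ^ b := by
  have h : IsOfFinOrder (g0 : ZMod q) :=
    orderOf_pos_iff.1 (H.og ▸ pow_pos H.pp.pos R)
  rw [h.pow_eq_pow_iff_modEq, pow_eq_pow_iff_modEq, H.og, ord_lam H]

theorem exists_pow (H : Cy p q R g0 k lam ζ) (s : Λ) : ∃ n : ℕ, lam ^ n = s := by
  have := H.gal
  have := IsGaloisGroup.finite Λ k E
  exact mem_powers_iff_mem_zpowers.2 (H.gen s)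

theorem inert (H : Cy p q R g0 k lam ζ) (W : Pr E q) (s : Λ) (h : s • zz H - zz H ∈ W.1.asIdeal) :
    s = 1 := by
  obtain ⟨n, rfl⟩ := exists_pow H s
  have := W.1.isPrime
  have := Fact.mk H.qp
  rw [zz_smul, ← Ideal.Quotient.eq, map_pow] at h
  have h1 : Ideal.Quotient.mk W.1.asIdeal (zz H) ≠ 1 := fun h1 => W.2 (by
    have h2 := congrArg (Ideal.Quotient.mk W.1.asIdeal) ((zz_prim H).geom_sum_eq_zero H.qp.one_lt)
    rw [← Ideal.Quotient.eq_zero_iff_mem, map_natCast]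
    simpa [h1] using h2)
  have h2 : orderOf (Ideal.Quotient.mk W.1.asIdeal (zz H)) = q :=
    orderOf_eq_prime (by rw [← map_pow, (zz_prim H).pow_eq_one, map_one]) h1
  have h3 : IsOfFinOrder (Ideal.Quotient.mk W.1.asIdeal (zz H)) :=
    orderOf_pos_iff.1 (H.qp.pos.trans_eq h2.symm)
  have h4 := h3.pow_eq_pow_iff_modEq.1 (h.trans (pow_one _).symm)
  rw [h2, ← ZMod.natCast_eq_natCast_iff, Nat.cast_pow, Nat.cast_one] at h4
  exact ((g0_pow H n 0).1 (h4.trans (pow_zero _).symm)).trans (pow_zero _)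

theorem frob (H : Cy p q R g0 k lam ζ) (W : Pr E q) : ∃ n : ℕ,
    (Ideal.absNorm (W.und k).1.asIdeal : ZMod q) = (g0 : ZMod q) ^ n ∧
    MulAction.stabilizer Λ W = Subgroup.zpowers (lam ^ n) ∧
    W.1.asIdeal.inertiaDeg (𝓞 k) = orderOf (lam ^ n) := by
  have := H.gal
  have := IsGaloisGroup.finite Λ k E
  have := W.1.isPrime
  have := W.1.isMaximal
  have := (und k W.1).isMaximal
  obtain ⟨σ, hσ⟩ := IsArithFrobAt.exists_of_isInvariant (𝓞 k) Λ W.1.asIdeal
  obtain ⟨n, rfl⟩ := exists_pow H σ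
  have e0 : MulAction.stabilizer Λ W = MulAction.stabilizer Λ W.1.asIdeal := by
    ext s
    exact ⟨fun h => congrArg (fun w : Pr E q => w.1.asIdeal) h,
      fun h => Subtype.ext (HeightOneSpectrum.ext h)⟩
  have e1 : Nat.card (MulAction.stabilizer Λ W.1.asIdeal) = W.1.asIdeal.inertiaDeg (𝓞 k) := by
    rw [Ideal.card_stabilizer_eq_card_inertia_mul_finrank (und k W.1).asIdeal W.1.asIdeal]
    have : W.1.asIdeal.inertia Λ = ⊥ := eq_bot_iff.2 fun s hs => inert H W s (hs _)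
    rw [this, Subgroup.card_bot, one_mul]
  have e2 : W.1.asIdeal.inertiaDeg (𝓞 k) ∣ orderOf (lam ^ n) := by
    let := Ideal.Quotient.field (und k W.1).asIdeal
    let := Ideal.Quotient.field W.1.asIdeal
    obtain ⟨ψ, ψ1, ψ2⟩ := ResAux.exists_frob (𝓞 k ⧸ (und k W.1).asIdeal) (𝓞 E ⧸ W.1.asIdeal)
      (orderOf (lam ^ n))
    rw [Ideal.inertiaDeg_eq_of_isMaximal (und k W.1).asIdeal]
    refine ψ2 fun x => ?_
    obtain ⟨x, rfl⟩ := Ideal.Quotient.mk_surjective x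
    have key : ∀ m : ℕ, Ideal.Quotient.mk W.1.asIdeal ((lam ^ n) ^ m • x) =
        Ideal.Quotient.mk W.1.asIdeal x ^ Nat.card (𝓞 k ⧸ (und k W.1).asIdeal) ^ m := fun m => by
      induction m with
      | zero => simp
      | succ m ih =>
        rw [pow_succ' (lam ^ n), mul_smul, pow_succ, pow_mul, ← ih]
        exact hσ.mk_apply _
    rw [ψ1, ← key, pow_orderOf_eq_one, one_smul]
  have e3 : Subgroup.zpowers (lam ^ n) = MulAction.stabilizer Λ W.1.asIdeal :=
    Subgroup.eq_of_le_of_card_ge (Subgroup.zpowers_le.2 hσ.mem_stabilizer) (by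
      rw [e1, Nat.card_zpowers]
      exact Nat.le_of_dvd (orderOf_pos _) e2)
  refine ⟨n, ?_, e0.trans e3.symm, by rw [← e1, ← e3, Nat.card_zpowers]⟩
  have h1 : lam ^ n • zz H = zz H ^ Ideal.absNorm (W.und k).1.asIdeal :=
    hσ.apply_of_pow_eq_one (zz_prim H).pow_eq_one W.2
  rw [zz_smul, (zz_prim H).isOfFinOrder H.qp.ne_zero |>.pow_eq_pow_iff_modEq,
    ← (zz_prim H).eq_orderOf, ← ZMod.natCast_eq_natCast_iff, Nat.cast_pow] at h1
  exact h1.symm

theorem abv (v : Pr k q) : ∃ W : Pr E q, W.und k = v := by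
  obtain ⟨w, hw⟩ := NT2.und_surj k E v.1
  exact ⟨⟨w, fun h => v.2 (hw ▸ (NT2.nat_mem k q w).2 h)⟩, Subtype.ext hw⟩

theorem rowFR : RowFR := by
  intro p q R g0 k E Λ _ _ _ _ _ _ _ lam ζ H
  have := H.gal
  have := IsGaloisGroup.finite Λ k E
  have hN : p ^ R ≠ 0 := pow_ne_zero _ H.pp.ne_zero
  have hU : Unr k E q := NT2.unr k E Λ q fun s hs W => ⟨zz H, fun h => hs (inert H W s h)⟩
  refine ⟨?_, hU, fun ψ hψ => ?_⟩
  · have h : ∀ w : Pr k q, ∃ n : ℕ, n < p ^ R ∧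
        (Ideal.absNorm w.1.asIdeal : ZMod q) = (g0 : ZMod q) ^ n := fun w => by
      obtain ⟨W, rfl⟩ := abv (E := E) w
      obtain ⟨n, hn, -⟩ := frob H W
      refine ⟨n % p ^ R, Nat.mod_lt _ (Nat.pos_of_ne_zero hN), ?_⟩
      rw [hn, ← H.og, pow_mod_orderOf]
    choose ψ hψ using h
    exact ⟨ψ, hψ⟩
  have hF : ∀ W : Pr E q, MulAction.stabilizer Λ W = Subgroup.zpowers (lam ^ ψ (W.und k)) ∧
      W.1.asIdeal.inertiaDeg (𝓞 k) = orderOf (lam ^ ψ (W.und k)) := fun W => by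
    obtain ⟨n, hn, h⟩ := frob H W
    rwa [(g0_pow H _ _).1 (hn.symm.trans (hψ _).2)] at h
  have ha : ∀ (W : Pr E q) (n : ℕ), lam ^ n • W = W ↔ (ψ (W.und k)).gcd (p ^ R) ∣ n := fun W n => by
    rw [← MulAction.mem_stabilizer_iff, (hF W).1, mem_zpowers_pow_iff, ord_lam H]
  have hb : ∀ W : Pr E q,
      W.1.asIdeal.inertiaDeg (𝓞 k) * (ψ (W.und k)).gcd (p ^ R) = p ^ R := fun W => by
    rw [(hF W).2, orderOf_pow, ord_lam H, Nat.gcd_comm]
    exact Nat.div_mul_cancel (Nat.gcd_dvd_right _ _)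
  refine ⟨ha, hb, fun W j hj => ?_, fun D => ⟨?_, fun h => ?_⟩, fun j _ x y hy hx w => ?_⟩
  · have h : IsOfFinOrder (g0 : ZMod q) := orderOf_pos_iff.1 (H.og ▸ pow_pos H.pp.pos R)
    rw [(hψ _).2, h.orderOf_pow, H.og, Nat.gcd_comm] at hj
    have h1 : p ^ j * (ψ (W.und k)).gcd (p ^ R) ∣ p ^ R :=
      mul_comm _ (p ^ j) ▸ (Nat.dvd_div_iff_mul_dvd (Nat.gcd_dvd_right _ _)).1 hj
    have h2 : j ≤ R := (Nat.pow_dvd_pow_iff_le_right H.pp.one_lt).1 ((dvd_mul_right _ _).trans h1)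
    rw [ha]
    refine Nat.dvd_of_mul_dvd_mul_left (pow_pos H.pp.pos j) ?_
    rwa [← pow_add, Nat.add_sub_cancel' h2]
  · rintro ⟨X, rfl⟩ w
    induction X using Finsupp.induction_linear with
    | zero => simp
    | add X Y hX hY =>
      rw [map_add, Finsupp.add_apply, mul_add]
      exact dvd_add hX hY
    | single W c =>
      have e : nrD E q k (Finsupp.single W c) =
          Finsupp.single (W.und k) (c * W.1.asIdeal.inertiaDeg (𝓞 k)) := by simp [nrD]
      rw [e]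
      by_cases hw : W.und k = w
      · rw [← hw, Finsupp.single_eq_same, dvd_mul_iff hN (hb W)]
        exact dvd_mul_left _ _
      · simp [Finsupp.single_eq_of_ne' hw]
  · rw [← Finsupp.sum_single D]
    refine sum_mem fun w _ => ?_
    obtain ⟨W, rfl⟩ := abv (E := E) w
    obtain ⟨c, hc⟩ := (dvd_mul_iff hN (hb W) _).1 (h (W.und k))
    exact ⟨Finsupp.single W c, by simp [nrD, hc, mul_comm]⟩
  · obtain ⟨W, rfl⟩ := abv (E := E) w
    have e : ord (W.und k).1 x = ∑ i ∈ Finset.range (p ^ j), ord W.1 (lam ^ i • y) := by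
      rw [← map_sum, ← Nm_apply, ← hx, NT2.ord_inc, hU W, Nat.cast_one, one_mul]
      rfl
    rw [e]
    refine dvd_sum_per (a := fun i => ord W.1 (lam ^ i • y)) (fun i => ?_) fun i => ?_
    · have h1 : lam ^ ψ (W.und k) • W.1 = W.1 :=
        congrArg Subtype.val ((ha W _).2 (Nat.gcd_dvd_left _ _))
      have h2 := NT2.ord_smul E Λ (lam ^ ψ (W.und k)) W.1 (lam ^ i • y)
      rwa [h1, ← mul_smul, ← pow_add, add_comm] at h2
    · show ord W.1 (lam ^ (i + p ^ j) • y) = ord W.1 (lam ^ i • y)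
      rw [pow_add, mul_smul, hy]

end Pool.Agent.MP_db5b97_nt.H70
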